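import Pool.Agent.W704.DiscNoAP

/-!
MP_7b119f_an, Q1 and Q2, for discrete metric spaces which are not assumed to be complete.

Let `X` be a Banach space without the approximation property, and let `N_n` be a maximal
`2^{-n}`-separated subset of `X`. The set `M` of the points `(x, 2^{-n})` of `X × ℝ` with `x` in `N_n`
is discrete, and `X × {0}` is a Lipschitz retract of its closure. Hence `δ : M → F_p(M)` gives rise
to a Lipschitz map `X → F_p(M)` which is a section of a bounded linear map `F_p(M) → X`.
-/

set_option autoImplicit false

open Pool.Agent.H548R3.PFree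

namespace Pool.Agent.Results.MP_7b119f_an.DiscreteFailsAP

/-- **MP_7b119f_an, Q1 and Q2.** There is a metric space `M` all of whose points are isolated (it is
not complete) such that for every `p` in `(0, 1]` and every base point the Lipschitz free `p`-space
over `M` fails the approximation property. -/
theorem result : ∃ (M : Type) (_ : MetricSpace M),
    Nonempty M ∧ (∀ x : M, ∃ r : ℝ, 0 < r ∧ ∀ y : M, dist y x < r → y = x) ∧
    ∀ (o : M) (p : ℝ), 0 < p → p ≤ 1 →
      (∃ (Z : Type) (_ : NormedAddCommGroup Z) (_ : Module ℝ Z) (δ : M → Z),
        IsLipschitzFree p M o Z δ) ∧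
      ∀ (Z : Type) [NormedAddCommGroup Z] [Module ℝ Z] (δ : M → Z),
        IsLipschitzFree p M o Z δ → ¬ HasAP p Z :=
  Pool.Agent.W704.Disc.exists_discrete

end Pool.Agent.Results.MP_7b119f_an.DiscreteFailsAP
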